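import Mathlib
import Pool.Agent.HRT.Family

set_option autoImplicit false
open MeasureTheory

namespace Pool.Agent.Results.MP_2a8753_an.SqrtTwoConfiguration

/-- For every `g ∈ L²(ℝ)` that is not almost everywhere zero, the four functions
`g(x)`, `g(x-1)`, `e^{2πix} g(x)`, `e^{2πi√2 x} g(x-√2)` are linearly independent in `L²(ℝ)`. -/
theorem result :
    ∀ g : ℝ → ℂ, MemLp g 2 (volume : Measure ℝ) →
      ¬ (g =ᵐ[(volume : Measure ℝ)] 0) →
      ∀ c : Fin 4 → ℂ,
        (∀ᵐ x ∂(volume : Measure ℝ),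
          c 0 * g x + c 1 * g (x - 1)
            + c 2 * (Complex.exp (2 * (Real.pi : ℂ) * Complex.I * (x : ℂ)) * g x)
            + c 3 * (Complex.exp (2 * (Real.pi : ℂ) * Complex.I * ((Real.sqrt 2 : ℂ) * (x : ℂ)))
                * g (x - Real.sqrt 2)) = 0) →
        c = 0 := by
  intro g hg hg0 c hrel
  refine Pool.Agent.HRT.family 1 one_ne_zero (Real.sqrt 2) irrational_sqrt_two g hg hg0 c ?_
  filter_upwards [hrel] with x hx
  simpa using hx

end Pool.Agent.Results.MP_2a8753_an.SqrtTwoConfiguration
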